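import Pool.Agent.R781.FD.G

/-!
# Maximal atypical subvarieties and fields of definition

Let `k ⊆ K` be algebraically closed fields, `K` uncountable, for instance `K = ℂ`. Let `X` be a
quasi-projective variety over `K` with a special structure: a countable collection `𝒮` of
subvarieties (irreducible Zariski closed subsets) of `X`, called special, which contains the
irreducible components of the intersections of its members. We assume that the special subvarieties
are defined over `k`. The examples of the problem: `X` is a semiabelian variety over `K = ℂ`, defined
over `k`, with the torsion cosets of its semiabelian subvarieties; or `X = Y(1)^n`, `k` the field of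
the algebraic numbers, with the special subvarieties given by modular polynomials. All special
subvarieties `T` are considered as ambient spaces; in the two examples they are (up to finite maps
which preserve the special subvarieties) of the same type.

`Atypical X 𝒮 T V A` says that `A` is an atypical subvariety of `V` in `T`: a component of `V ∩ Z`
with `dim A > dim Z + dim V - dim T`, for some special `Z` in `T`; `MaxAtyp X 𝒮 T V A` says that `A`
is a maximal one. `FinMax X 𝒮 Q P` says that for all special `T` all the subvarieties `V` of `T` with
the property `Q` have only finitely many maximal atypical subvarieties with the property `P`. So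
`FinMax X 𝒮 (fun _ => True) (fun _ => True)` is the question Q1 for all `T`. Let `clo k X V` be the
closure of `V` over `k`, the smallest closed subset of `X` defined over `k` which contains `V`.

Theorem. (1) Let `V` be a subvariety of a special `T` and `r = dim (clo k X V) - dim V`, which is
positive if `V` is not defined over `k`. There is a closed subset `W` with `V ⊄ W` such that all the
subvarieties `A` of `V ∩ S`, `S` special, which are not contained in `W`, have `dim A ≤ dim S - r`,
and `dim A < dim S - r` unless `S ⊆ clo k X V`. If `clo k X V = T` (no proper subvariety of `T`
defined over `k` contains `V`), all the atypical subvarieties of `V` in `T` are contained in `W`.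
(2) Q1 for all `V` over `K` is equivalent to Q1 for all `V` defined over `k`.
(3) If `k` is countable, the following are equivalent:
(a) all `V` defined over `k` have only finitely many maximal atypical subvarieties of positive
dimension;
(b) all `V` over `K` have only finitely many maximal atypical subvarieties of positive dimension;
(c) all `V` over `K` have only finitely many maximal atypical subvarieties which are not defined over
`k`;
(d) the same as (c), only for the `V` which are not defined over `k`.

By (2), Q1 over `K` is equivalent to (a) and the statement that all `V` defined over `k` have only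
finitely many maximal atypical points. Condition (b) does not depend on `k`.

The proof of (1): the relations between the generic point of `V` and the coefficients of the equations
of `V` hold for the generic point of `A`; so the transcendence degree over `k` of the latter is at
least `dim A + r`, if `A` is not contained in the closed set where the relations become trivial
(`Pool.Agent.R781.FD.C`). (2) and the implication from (a) to (b), (c) and (d) follow from (1) and the
reduction of Q1 to points. (d) implies (b): very general hyperplane sections
(`Pool.Agent.R781.FD.E`).
-/

set_option autoImplicit false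

open Pool.Agent.R948.ZP Pool.Agent.R370.HS Pool.Agent.R781.FD

/-- **Maximal atypical subvarieties and fields of definition.** -/
theorem Pool.Agent.Results.MP_dd1803_nt.FieldsOfDefinition.result
    (K : Type) [Field K] [IsAlgClosed K] [Uncountable K] (ι : Type) [Fintype ι]
    (X : Set (ι → K)) (hX : QuasiProjective X)
    (𝒮 : Set (Set (ι → K))) (h𝒮 : SpecialStructure X 𝒮)
    (k : Type) [Field k] [IsAlgClosed k] [Algebra k K] (hk : ∀ S ∈ 𝒮, Def k S) :
    (∀ T ∈ 𝒮, ∀ V, Subvariety X V → V ⊆ T →
      (dim V ≤ dim (clo k X V) ∧ (dim (clo k X V) = dim V ↔ Def k V)) ∧
      ∃ W, Closed X W ∧ ¬ V ⊆ W ∧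
        (∀ S ∈ 𝒮, ∀ A, Subvariety X A → A ⊆ V ∩ S → ¬ A ⊆ W →
          dim A + (dim (clo k X V) - dim V) ≤ dim S ∧
          (dim A + (dim (clo k X V) - dim V) = dim S → S ⊆ clo k X V)) ∧
        (clo k X V = T → ∀ A, Atypical X 𝒮 T V A → A ⊆ W)) ∧
    (FinMax X 𝒮 (fun _ => True) (fun _ => True) ↔ FinMax X 𝒮 (Def k) (fun _ => True)) ∧
    (Countable k → List.TFAE [FinMax X 𝒮 (Def k) (fun A => 1 ≤ dim A),
      FinMax X 𝒮 (fun _ => True) (fun A => 1 ≤ dim A),
      FinMax X 𝒮 (fun _ => True) (fun A => ¬ Def k A),
      FinMax X 𝒮 (fun V => ¬ Def k V) (fun A => ¬ Def k A)]) :=
  ⟨fun _ hT _ hV hVT => ⟨clo_dim hX (h𝒮.subvariety _ hT) (hk _ hT) hV hVT,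
      gap_theorem hX h𝒮 hk hT hV hVT⟩,
    finMax_iff hX h𝒮 hk, fun _ => finMax_tfae hX h𝒮 hk⟩
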