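import Pool.Agent.R870.NT.Main
import Pool.Agent.R870.NT.Points
import Pool.Agent.R870.RZ.Trans

/-!
# MP_dd1803_nt, `𝔖 = Y(1)^n`: the translates `F + g` of a map `F : V → Y(1)^n` with an atypical
intersection with a special subvariety of complexity at most `Δ` have their parameters `g` on a
hypersurface of degree at most `C Δ ^ (17 n)`

Let `V` be an arbitrary irreducible variety in `ℂ^s`, of dimension `d`, and let
`F = (F_1, …, F_n) : V → Y(1)^n = ℂ^n` be a map given by arbitrary polynomials of degree at most `e`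
with complex coefficients. For `g ∈ ℂ^n` let `F + g` be the map `x ↦ F(x) + g`. (For `V ⊆ ℂ^n` and
`F = id` this is the translate `V + g` of the subvariety `V` of `Y(1)^n`; `g` runs over the constant
terms of the polynomials.)

There is a constant `C`, depending only on `V`, `n` and `e`, such that for every `Δ ≥ 1` there is a
nonzero polynomial `Q` in `n` variables of degree at most `C Δ ^ (17 n)` with the following property:
if `Q(g) ≠ 0`, then all intersections of `F + g` with the special subvarieties `Z` of `Y(1)^n` of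
complexity at most `Δ` are typical: all irreducible subsets `W` of `V` which are mapped into `Z` by
`F + g` have dimension at most `dim V - codim Z`. In particular no point of `V` is mapped to a `Z`
with `codim Z > dim V`.

Hence this holds for all points `g` of a grid `B ^ n` (for instance integral points of size at most
`H`) with at most `C Δ ^ (17 n) |B| ^ (n - 1)` exceptions: for 100 % of the `g ∈ B ^ n` if `Δ` is
`|B| ^ θ`, `θ < 1 / (17 n)`.

The same holds if the constant coordinates of `Z` are in an arbitrary finite set `G` of complex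
numbers, with the bound `C (|G| + 1) ^ n Δ ^ (14 n)` for the degree.
-/

set_option autoImplicit false

namespace Pool.Agent.Results.MP_dd1803_nt.TranslatesOfMaps

open MvPolynomial Pool.Agent.R870.NY UpperHalfPlane H294ZP
open Pool.Agent.R870.RZ (idealOf dim)

/-- All intersections of the map `F + g : V → ℂ^n`, `x ↦ F(x) + g`, `dim V = d`, with the special
subvariety `Z` of dimension `r` are typical: the irreducible subsets `W` of `V` which are mapped into
`Z` have dimension at most `d + r - n = dim V - codim Z`. -/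
def TypicalOn {s n r : ℕ} (V : Set (Fin s → ℂ)) (d : ℕ) (F : Fin n → MvPolynomial (Fin s) ℂ)
    (g : Fin n → ℂ) (Z : Special n r) : Prop :=
  ∀ W : Set (Fin s → ℂ), W ⊆ V → (∀ x ∈ W, (fun i => eval x (F i) + g i) ∈ Z.locus) →
    (idealOf W).IsPrime → dim W + (n : Cardinal) ≤ (d : Cardinal) + (r : Cardinal)

/-- Let `V ⊆ ℂ^s` be an irreducible variety of dimension `d`. There is a `C` depending only on `V`,
`n` and `e` such that for all maps `F : V → Y(1)^n = ℂ^n` given by polynomials of degree at most `e`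
and all `Δ ≥ 1`:

(1) there is a nonzero polynomial `Q` of degree at most `C Δ ^ (17 n)` such that for all `g` with
`Q(g) ≠ 0` all intersections of `F + g` with special subvarieties given by matrices of
determinant at most `Δ` and special points of complexity at most `Δ` as constants are typical;

(2) for all finite nonempty sets `B` this is the case for all `g ∈ B ^ n` with at most
`C Δ ^ (17 n) |B| ^ (n - 1)` exceptions;

(3) for all finite sets `G` of complex numbers there is a nonzero polynomial `Q` of degree at most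
`C (|G| + 1) ^ n Δ ^ (14 n)` such that for all `g` with `Q(g) ≠ 0` all intersections of `F + g` with
the subvarieties given by matrices of determinant at most `Δ` and constants in `G` are typical. -/
theorem result {s : ℕ} (V : Set (Fin s → ℂ)) (hVp : (idealOf V).IsPrime) (d : ℕ)
    (hd : dim V = d) (n e : ℕ) :
    ∃ C : ℕ, ∀ F : Fin n → MvPolynomial (Fin s) ℂ, (∀ i, (F i).totalDegree ≤ e) →
      ∀ Δ : ℕ, 1 ≤ Δ →
        (∃ Q : MvPolynomial (Fin n) ℂ, Q ≠ 0 ∧ Q.totalDegree ≤ C * Δ ^ (17 * n) ∧
          ∀ g : Fin n → ℂ, eval g Q ≠ 0 → ∀ (r : ℕ) (Z : Special n r),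
            (∀ i, (Z.mat i).det ≤ Δ) → (∀ i, Z.cls i = none → SpecialPoint Δ (Z.const i)) →
              TypicalOn V d F g Z) ∧
        (∀ B : Finset ℂ, 1 ≤ B.card → ∃ E : Finset (Fin n → ℂ),
          E.card * B.card ≤ C * Δ ^ (17 * n) * B.card ^ n ∧
          ∀ g : Fin n → ℂ, (∀ l, g l ∈ B) → g ∉ E → ∀ (r : ℕ) (Z : Special n r),
            (∀ i, (Z.mat i).det ≤ Δ) → (∀ i, Z.cls i = none → SpecialPoint Δ (Z.const i)) →
              TypicalOn V d F g Z) ∧
        ∀ G : Finset ℂ, ∃ Q : MvPolynomial (Fin n) ℂ, Q ≠ 0 ∧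
          Q.totalDegree ≤ C * (G.card + 1) ^ n * Δ ^ (14 * n) ∧
          ∀ g : Fin n → ℂ, eval g Q ≠ 0 → ∀ (r : ℕ) (Z : Special n r),
            (∀ i, (Z.mat i).det ≤ Δ) → (∀ i, Z.cls i = none → Z.const i ∈ G) →
              TypicalOn V d F g Z := by
  classical
  obtain ⟨C, hC⟩ := Pool.Agent.R870.NT.main V hVp d hd.le n e
  refine ⟨C * 28 ^ n, fun F hF Δ hΔ => ?_⟩
  have h1 : ∃ Q : MvPolynomial (Fin n) ℂ, Q ≠ 0 ∧ Q.totalDegree ≤ C * 28 ^ n * Δ ^ (17 * n) ∧
      ∀ g : Fin n → ℂ, eval g Q ≠ 0 → ∀ (r : ℕ) (Z : Special n r),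
        (∀ i, (Z.mat i).det ≤ Δ) → (∀ i, Z.cls i = none → SpecialPoint Δ (Z.const i)) →
          TypicalOn V d F g Z := by
    obtain ⟨G, hG, hG'⟩ := Pool.Agent.R870.NT.special_points Δ
    obtain ⟨Q, hQ0, hQd, hQ⟩ := hC F hF Δ hΔ G
    refine ⟨Q, hQ0, hQd.trans ?_, fun g hg r Z hZ ht => hQ g hg r Z hZ fun i hi => hG' _ (ht i hi)⟩
    have h1 : G.card + 1 ≤ 28 * Δ ^ 3 := by
      have h2 : (2 * Δ + 1) ^ 3 ≤ (3 * Δ) ^ 3 := Nat.pow_le_pow_left (by omega) 3
      have h3 : 1 ≤ Δ ^ 3 := Nat.one_le_pow _ _ hΔ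
      have h4 : (3 * Δ) ^ 3 = 27 * Δ ^ 3 := by ring
      omega
    calc C * (G.card + 1) ^ n * Δ ^ (14 * n) ≤ C * (28 * Δ ^ 3) ^ n * Δ ^ (14 * n) :=
          Nat.mul_le_mul_right _ (Nat.mul_le_mul_left _ (Nat.pow_le_pow_left h1 n))
      _ = C * 28 ^ n * Δ ^ (17 * n) := by
          rw [mul_pow, ← pow_mul, show 17 * n = 3 * n + 14 * n by ring, pow_add]
          ring
  refine ⟨h1, fun B hB => ?_, fun G => ?_⟩
  · obtain ⟨Q, hQ0, hQd, hQ⟩ := h1
    refine ⟨(Fintype.piFinset fun _ => B).filter fun g => eval g Q = 0, ?_, ?_⟩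
    · refine Pool.Agent.R870.RZ.zeros_grid Q hQ0 _ hQd B hB _ ?_ ?_
      · intro y hy i
        exact Fintype.mem_piFinset.1 (Finset.mem_filter.1 hy).1 i
      · intro y hy
        exact (Finset.mem_filter.1 hy).2
    · intro g hg hgE
      refine hQ g fun h => hgE ?_
      rw [Finset.mem_filter, Fintype.mem_piFinset]
      exact ⟨hg, h⟩
  · obtain ⟨Q, hQ0, hQd, hQ⟩ := hC F hF Δ hΔ G
    refine ⟨Q, hQ0, hQd.trans ?_, hQ⟩
    refine Nat.mul_le_mul_right _ (Nat.mul_le_mul_right _ ?_)
    exact Nat.le_mul_of_pos_right _ (by positivity)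

end Pool.Agent.Results.MP_dd1803_nt.TranslatesOfMaps
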