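import Pool.Agent.R424.TG.Main

/-!
# MP_dd1803_nt: a tropical criterion for the members of arbitrary families of subvarieties of
`Y(1)^n × G_m^k`

`Y(1)^n` is identified with `ℂ^n` by the elliptic modular function `jj = j = E₄³ / Δ`. The case
`k = 0` is case (b) of the problem, the case `n = 0` case (a) for tori; the mixed case is a common
generalization.

**Families.** Let `K ⊂ ℂ` be a countable field and let `P` be an arbitrary finite system of polynomials
with coefficients in `K[t]`, in `n` modular coordinates, `k` torus coordinates and `N` auxiliary
coordinates. The member `X_t` (`member`) is the set of the points `x` of `Y(1)^n × G_m^k` for which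
there is a `y ∈ ℂ^N` such that all polynomials of the system vanish at `(x, y)`, for the given `t`.
So `(X_t)` can be any one-parameter family of subvarieties, or of their images under algebraic maps or
correspondences, for instance the images of families of subvarieties of products of modular curves
of any levels.

**Tropicalization.** For `α ∈ ℂ` the set `Trop α P` consists of the points `w` of `(ℚ ∪ {∞})^(n+k+N)`
such that for every polynomial of the system the minimum of the numbers `ord_α (coefficient) + β · w`
(over the exponents `β` of its monomials) is attained at two different exponents or is infinite.

**Types of special subvarieties.** The product `Z × C` of a special subvariety `Z` of `Y(1)^n` and a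
coset `C` of an algebraic subgroup of the torus has a type `(cls, d, L)`: the partition `cls` of the
coordinates of `Y(1)^n` which are not constant on `Z` into `r = dim Z` classes, the determinants
`d_i > 0` of the matrices which define `Z`, and the linear subspace `L` of `ℚ^k`, of dimension `dim C`,
which is orthogonal to the characters constant on `C`. A point `w` is compatible with the type
(`Compatible`) if `w_i ≥ 0` for the constant coordinates, for coordinates `i`, `j` in the same class
either `w_i ≥ 0` and `w_j ≥ 0`, or `w_i < 0`, `w_j < 0` and `d_i d_j w_i w_j` is the square of a rational
number, and the torus coordinates of `w` are a vector in `L`.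

**Theorem.** Let `m` be an integer (the dimension of the members) and `D` a finite set of numbers
algebraic over `K`, such that for every type of dimension `r + dim L < n + k - m` there are at least
`s` elements `α` of `D` such that `Trop α P` contains no compatible point (`Generic`). Then `X_t` has no
atypical intersection with the products `Z × C` (`NoAtypical`: every irreducible closed subset of
`X_t ∩ (Z × C)` has dimension at most `dim (Z × C) + m - (n + k)`, and the same bound holds for the
transcendence degrees of the points of `X_t ∩ (Z × C)`)
1. for all transcendental `t`, that is all but countably many `t ∈ ℂ`, if `s = 1`,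
2. for all but finitely many `t` in any finitely generated field of numbers algebraic over `K`, for
   instance in any number field, if `s = 3`,
3. for all but finitely many `t` in any finitely generated ring of numbers algebraic over `K`, if
   `s = 2`, and for all but finitely many of its units if `s = 1`, with `0 ∉ D`.

The constant coordinates of `Z` can be special points or integral over the ring `ℤ[Γ]` generated by a
given finite set `Γ` of numbers algebraic over `K`, and `C` is a coset by a point whose coordinates
are units over `ℤ[Γ]`, for instance a torsion coset.

The starting files on families in `Y(1)^n` and `Y(1)^n × G_m^k` treat families of the special form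
`c_i(t) s_i = A_i(y) / B_i(y)`, where at each degenerate parameter no point lies on `m + 1` of the
divisors of the `A_i / B_i` and all `c_i` vanish, with independent orders, and every two of the
degenerate parameters are compared. Here the family is arbitrary, and the condition is a condition on
its tropicalizations only, in which different degenerate parameters can exclude different types of
special subvarieties. For tori (`n = 0`) this is similar to `MP_c95b3b_ag.TropicallyGenericFamilies`.

The proof: if `t - α` is not a unit in the finitely generated ring `ℤ[t, W]`, for a suitable finite set
`W`, then there is a valuation ring of `ℂ` in which `t` is near to `α`. By the modular equations the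
values `v(x_i)`, `v(x_j) < 0` of two coordinates in one class satisfy `d_i d_j v(x_j) = a^2 v(x_i)` with
an integer `a`. By linear programming over `ℚ` the values of the coordinates of a point of
`X_t ∩ (Z × C)` can be replaced by rational numbers, and this gives a point of `Trop α P`, which is
compatible with the type of `Z × C`. Coordinates which are algebraically independent can be chosen
to be units, and this reduces the dimension of the type. The exceptional `t` are solutions of unit
equations.
-/

set_option autoImplicit false

namespace Pool.Agent.Results.MP_dd1803_nt.TropicalCriterion

open MvPolynomial Pool.Agent.R424.TG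
open Pool.Agent.Y152.RP.FamM (NoAtypical)

/-- **The tropical criterion** for arbitrary one-parameter families of subvarieties of
`Y(1)^n × G_m^k`. -/
theorem result (K : Subfield ℂ) [Countable K] (κ : Type) [Finite κ] (n k N m : ℕ)
    (P : κ → MvPolynomial ((Fin n ⊕ Fin k) ⊕ Fin N) (Polynomial K)) (D : Finset ℂ)
    (hD : ∀ α ∈ D, IsAlgebraic K α) (Γ : Finset ℂ) (hΓ : ∀ γ ∈ Γ, IsAlgebraic K γ)
    (F : Finset ℂ) (hF : ∀ z ∈ F, IsAlgebraic K z) :
    (Generic m 1 P D → ∀ t : ℂ, Transcendental K t → ∀ (K₁ : Subfield ℂ) [Countable K₁],
      K ≤ K₁ → t ∈ K₁ →
        NoAtypical (algebraMap (Algebra.adjoin ℤ (Γ : Set ℂ)) ℂ) K₁ m (member t P)) ∧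
    (Generic m 3 P D →
      {t : ℂ | t ∈ Subfield.closure (F : Set ℂ) ∧
        ¬ NoAtypical (algebraMap (Algebra.adjoin ℤ (Γ : Set ℂ)) ℂ) K m (member t P)}.Finite) ∧
    (Generic m 2 P D →
      {t : ℂ | t ∈ Subring.closure (F : Set ℂ) ∧
        ¬ NoAtypical (algebraMap (Algebra.adjoin ℤ (Γ : Set ℂ)) ℂ) K m (member t P)}.Finite) ∧
    (Generic m 1 P (D.erase 0) →
      {t : ℂ | (t ∈ Subring.closure (F : Set ℂ) ∧ t ≠ 0 ∧ t⁻¹ ∈ Subring.closure (F : Set ℂ)) ∧
        ¬ NoAtypical (algebraMap (Algebra.adjoin ℤ (Γ : Set ℂ)) ℂ) K m
          (member t P)}.Finite) :=
  familyT K κ n k N m P D hD Γ hΓ F hF

end Pool.Agent.Results.MP_dd1803_nt.TropicalCriterion
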