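import Pool.Agent.R424.TG.Alg

/-!
# MP_dd1803_nt: a tropical criterion for the members with parameters of bounded degree, radical
parameters and roots of unity, of arbitrary families of subvarieties of `Y(1)^n × G_m^k`

`Y(1)^n` is identified with `ℂ^n` by the elliptic modular function `jj = j = E₄³ / Δ`. The case
`k = 0` is case (b) of the problem, the case `n = 0` case (a) for tori; the mixed case is a common
generalization.

**Families** (as in `TropicalCriterion`). Let `K ⊂ ℂ` be a countable field and let `P` be an arbitrary
finite system of polynomials with coefficients in `K[t]`, in `n` modular coordinates, `k` torus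
coordinates and `N` auxiliary coordinates. The member `X_t` (`member`) is the set of the points `x` of
`Y(1)^n × G_m^k` for which there is a `y ∈ ℂ^N` such that all polynomials of the system vanish at
`(x, y)`, for the given `t`. So `(X_t)` can be any one-parameter family of subvarieties, or of their
images under algebraic maps or correspondences.

**Tropicalization.** For `α ∈ ℂ` the set `Trop α P` consists of the points `w` of `(ℚ ∪ {∞})^(n+k+N)`
such that for every polynomial of the system the minimum of the numbers `ord_α (coefficient) + β · w`
(over the exponents `β` of its monomials) is attained at two different exponents or is infinite.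

**Types of special subvarieties.** The product `Z × C` of a special subvariety `Z` of `Y(1)^n` and a
coset `C` of an algebraic subgroup of the torus has a type `(cls, d, L)`: the partition `cls` of the
coordinates of `Y(1)^n` which are not constant on `Z` into `r = dim Z` classes, the determinants
`d_i > 0` of the matrices which define `Z`, and the linear subspace `L` of `ℚ^k`, of dimension `dim C`,
which is orthogonal to the characters constant on `C`. A point `w` is compatible with the type
(`Compatible`) if `w_i ≥ 0` for the constant coordinates, for coordinates `i`, `j` in the same class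
either `w_i ≥ 0` and `w_j ≥ 0`, or `w_i < 0`, `w_j < 0` and `d_i d_j w_i w_j` is the square of a rational
number, and the torus coordinates of `w` are a vector in `L`.

**Theorem.** Let `m` be an integer (the dimension of the members) and let `α_1, …, α_M` be rational
numbers such that for every type of dimension `r + dim L < n + k - m` there are at least `s` indices
`l` such that `Trop α_l P` contains no compatible point (`GenericAt`). Then the member `X_t` has no
atypical intersection with the products `Z × C` (`NoAtypical`: every irreducible closed subset of
`X_t ∩ (Z × C)` has dimension at most `dim (Z × C) + m - (n + k)`, and the same bound holds for the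
transcendence degrees of the points of `X_t ∩ (Z × C)` over `K`)
1. for all but finitely many algebraic numbers `t` of degree at most `δ` over the rational numbers,
   if the `α_l` are distinct and `s = 2 δ + 1`,
2. for all but finitely many radical numbers `t` (some power of `t` is rational; these are the elements
   of the division group of `ℚ^×`, of unbounded degrees), if the `α_l` are not zero and have distinct
   absolute values, and `s = 3`,
3. for all but finitely many roots of unity `t`, if `|α_l| ≠ 0, 1`, and `s = 1`.

The constant coordinates of `Z` can be special points or integral over the ring `ℤ[Γ]` generated by a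
given finite set `Γ` of numbers algebraic over `K`, and `C` is a coset by a point whose coordinates
are units over `ℤ[Γ]`, for instance a torsion coset.

So for instance for torsion parameters every family over the line for which each type of special
subvarieties is excluded by the tropicalization at one of the numbers `α_l` has only finitely many
members `X_ζ` with an atypical intersection. The starting file `MP_d83ecd_ag.AlgebraicParameters`
treats families of the special form `c_i(t) s_i = A_i(y) / B_i(y)` in `Y(1)^n`, where at each `α_l` no
point lies on `m + 1` of the divisors of the `A_i / B_i` and all `c_i` vanish, with independent orders.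
Here the family is arbitrary, torus coordinates are included, and the condition is a condition on its
tropicalizations only, in which different `α_l` can exclude different types of special
subvarieties. The arithmetic input (prime factors of the values of the minimal polynomial of `t` at
the `α_l`) is the theorem `Pool.Agent.Y152.RP` of that file; the local criterion is the one of
`TropicalCriterion`.
-/

set_option autoImplicit false

namespace Pool.Agent.Results.MP_dd1803_nt.TropicalCriterionAlgebraic

open MvPolynomial Pool.Agent.R424.TG
open Pool.Agent.Y152.RP.FamM (NoAtypical)

/-- `t` is algebraic of degree at most `d` over the rational numbers. -/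
def DegreeAtMost (d : ℕ) (t : ℂ) : Prop :=
  ∃ F : Polynomial ℤ, F ≠ 0 ∧ F.natDegree ≤ d ∧ Polynomial.aeval t F = 0

/-- Some power of `t` with positive exponent is a rational number. -/
def IsRadical (t : ℂ) : Prop := ∃ N : ℕ, 0 < N ∧ ∃ q : ℚ, t ^ N = (q : ℂ)

/-- `t` is a root of unity. -/
def IsRootOfUnity (t : ℂ) : Prop := ∃ N : ℕ, 0 < N ∧ t ^ N = 1

/-- **The tropical criterion** for the members of arbitrary one-parameter families of subvarieties
of `Y(1)^n × G_m^k` with parameters of bounded degree, with radical parameters, and with roots of
unity as parameters. -/
theorem result (K : Subfield ℂ) [Countable K] (κ : Type) [Finite κ] (n k N m M : ℕ)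
    (P : κ → MvPolynomial ((Fin n ⊕ Fin k) ⊕ Fin N) (Polynomial K)) (α : Fin M → ℚ)
    (Γ : Finset ℂ) (hΓ : ∀ γ ∈ Γ, IsAlgebraic K γ) :
    (Function.Injective α → ∀ δ : ℕ, GenericAt m (2 * δ + 1) P α →
      {t : ℂ | DegreeAtMost δ t ∧
        ¬ NoAtypical (algebraMap (Algebra.adjoin ℤ (Γ : Set ℂ)) ℂ) K m (member t P)}.Finite) ∧
    ((∀ l, α l ≠ 0) → (∀ l l', l ≠ l' → |α l| ≠ |α l'|) → GenericAt m 3 P α →
      {t : ℂ | IsRadical t ∧
        ¬ NoAtypical (algebraMap (Algebra.adjoin ℤ (Γ : Set ℂ)) ℂ) K m (member t P)}.Finite) ∧
    ((∀ l, α l ≠ 0 ∧ |α l| ≠ 1) → GenericAt m 1 P α →
      {t : ℂ | IsRootOfUnity t ∧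
        ¬ NoAtypical (algebraMap (Algebra.adjoin ℤ (Γ : Set ℂ)) ℂ) K m
          (member t P)}.Finite) := by
  have hrad : ∀ t ∈ {t : ℂ | IsRadical t}, IsAlgebraic ℤ t := fun t ht =>
    Pool.Agent.Y152.RP.alg_of_rad ht
  have hun : ∀ t ∈ {t : ℂ | IsRootOfUnity t}, IsAlgebraic ℤ t := by
    rintro t ⟨N, hN, ht⟩
    exact Pool.Agent.Y152.RP.alg_of_rad ⟨N, hN, 1, by rw [ht, Rat.cast_one]⟩
  have hdeg : ∀ d, ∀ t ∈ {t : ℂ | DegreeAtMost d t}, IsAlgebraic ℤ t := by
    rintro d t ⟨F, hF0, -, hFt⟩
    exact ⟨F, hF0, hFt⟩
  refine ⟨fun hinj δ hgen => ?_, fun h0 hdist hgen => ?_, fun hne hgen => ?_⟩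
  · exact algT K κ n k N m M (2 * δ + 1) P α hgen Γ hΓ _ (hdeg δ) fun hM D =>
      Pool.Agent.Y152.BD.finite_badD D δ (by omega) α hinj
  · exact algT K κ n k N m M 3 P α hgen Γ hΓ _ hrad fun hM D =>
      Pool.Agent.Y152.RP.arithMain D _ M (by omega) α h0 hdist
  · exact algT K κ n k N m M 1 P α hgen Γ hΓ _ hun fun hM D =>
      Pool.Agent.Y152.RP.unityMain (by omega) α (fun l => (hne l).1) (fun l => (hne l).2) D

end Pool.Agent.Results.MP_dd1803_nt.TropicalCriterionAlgebraic
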